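import Pool.Agent.V1179.MH.GH7

set_option autoImplicit false

/-!
# Polynomial configurations of residue classes with large least primes

Write `f(Z) = log Z (log₂ Z)² log₄ Z / (log₃ Z)²`.  For prime moduli `d` the lower bound
`p(d) ≥ c d f(d)` for the largest least prime in the residue classes modulo `d` (starting library, after
Pomerance and Ford–Green–Konyagin–Maynard–Tao) concerns one residue class.  Here it is proved for all
classes of a polynomial configuration at once.

Let `P_1, …, P_r` be distinct integer polynomials in `m` variables of degree at most `D` without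
constant terms, for instance `0, y, 2y, …, (r-1) y` or `0, y, y², …`.  There is `κ > 0`, depending only
on `m`, `r`, `D` and `ε`, such that for all large primes `d` every box in `ℤ^(m+1)` with sides
`≥ d ^ ε`, on which the numbers `x + P_i(y)` are between `d ^ ε` and `d`, contains a point `(x, y)` such
that the least prime in each of the `r` residue classes `x + P_i(y)` modulo `d` is greater than
`κ d f(d)`.

For example: every large prime modulus `d` has arithmetic progressions of `k` residue classes
`x, x + y, …, x + (k-1) y` (`x`, `y` in prescribed intervals of length `d ^ ε`) with all the least primes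
of record size.

Proof: the values `d' (x + P_i(y))` (`d'` an inverse of `d` modulo all small primes) in the criterion for
families of polynomial values, here with local conditions for the primes up to `X ^ (1/10)` only
(`critI`); the point modulo all small primes is `(e d, 0, …, 0)`.  The criterion uses the covering
theorem `Pool.Agent.Y961.JR.coverAbs` of the starting library.
-/

namespace Pool.Agent.Results.MP_458f0b_nt.ConfigurationsOfClasses

open MvPolynomial

/-- the size of the largest known prime gaps below `Z` -/
noncomputable def f (Z : ℝ) : ℝ :=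
  Real.log Z * (Real.log (Real.log Z)) ^ 2 * Real.log (Real.log (Real.log (Real.log Z))) /
    (Real.log (Real.log (Real.log Z))) ^ 2

/-- the number `x + P(y)` for `z = (x, y)` -/
noncomputable def value {m : ℕ} (P : MvPolynomial (Fin m) ℤ) (z : Fin (m + 1) → ℤ) : ℤ :=
  z 0 + eval (fun l => z l.succ) P

theorem result (m r D : ℕ) (hr : 1 ≤ r) (ε : ℝ) (hε : 0 < ε) (hε1 : ε ≤ 1) :
    ∃ κ : ℝ, 0 < κ ∧ ∀ P : Fin r → MvPolynomial (Fin m) ℤ, Function.Injective P →
    (∀ i, (P i).totalDegree ≤ D) → (∀ i, constantCoeff (P i) = 0) →
    ∃ d₀ : ℕ, ∀ d : ℕ, d₀ ≤ d → d.Prime → ∀ (a : Fin (m + 1) → ℤ) (L : Fin (m + 1) → ℕ),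
      (∀ j, (d : ℝ) ^ ε ≤ L j) →
      (∀ z : Fin (m + 1) → ℤ, (∀ j, a j ≤ z j ∧ z j < a j + L j) →
        ∀ i, (d : ℝ) ^ ε ≤ ((value (P i) z : ℤ) : ℝ) ∧ value (P i) z < d) →
      ∃ z : Fin (m + 1) → ℤ, (∀ j, a j ≤ z j ∧ z j < a j + L j) ∧
        ∀ i, ∀ q : ℕ, q.Prime → (d : ℤ) ∣ q - value (P i) z → κ * d * f d < q :=
  Pool.Agent.V1179.MH.GH.ap_config m r D hr ε hε hε1

end Pool.Agent.Results.MP_458f0b_nt.ConfigurationsOfClasses
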