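import Pool.Agent.H225.AX3

/-!
# Exact patterns of almost primes in every reduced class of every modulus, with restricted digits

Let `b ≥ 2` be a base, let `1 ≤ q ≤ b^{DK}` be ANY modulus and `a ≤ b^{DK}` prime to `q`.  In the
progression `q m + a`, `m = N + n`, with an arbitrary base point `N ≤ b^{DK}`, let the digits of `n < b^K`
be restricted: the `i`-th digit belongs to a set `A i`, where the sets `A i` are arbitrary, depend on the
place `i < K`, and have the only property that the number `∏ |A i|` of these `n` is at least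
`e^{-δK} b^K`, where the constant `δ > 0` does not depend on `b`.

Let `H` be ANY set of `k` integers `0 ≤ h ≤ c K φ(q) / q` (so that the numbers `q (m + h) + a`, `h ∈ H`, lie
in an interval whose length is a multiple of the mean distance of the rough numbers in this progression)
which does not cover all classes modulo a prime not dividing `q`.  Then the sieve product `V` is at least
`κ / K^k`, and (if the last digit can be chosen such that the numbers `q (m + h) + a`, `h ∈ H`, are prime to
`b`) for at least `κ V ∏ |A i|` of these `n` the numbers `q (m + h) + a`, `h ∈ H`, have at most `r` prime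
factors, all larger than `b^{K/r}`, while ALL other numbers `q (m + j) + a`, `0 ≤ j ≤ c K φ(q) / q`, of the
progression have a prime factor `≤ b^{K/r}`.  For at most `C V ∏ |A i|` of these `n` the numbers
`q (m + h) + a`, `h ∈ H`, are all prime.  The constants do not depend on `q`, `a`, `N`, `H`.

In particular every reduced class modulo EVERY `q` contains, below `q^{1 + ε}`, each exact pattern whose diameter is
at most `c φ(q) log q`, with the right order of magnitude.

The method is a Brun–Hooley sieve with weights, whose level of distribution is obtained from the Fourier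
transform of the set of the integers with restricted digits at rationals (large sieve in blocks of
digits), see `Pool/Agent/Y816/PD`; the other numbers are excluded by the upper bound for patterns with one
more element and an average of the sieve products, see `Pool/Agent/H225/AX2`, `Pool/Agent/H225/AX3`.
-/

set_option autoImplicit false

namespace Pool.Agent.Results.MP_458f0b_nt.ExactPatterns

open Finset Filter

/-- `-H` does not cover all classes modulo a prime not dividing `q`. -/
def Admissible (q : ℕ) (H : Finset ℕ) : Prop :=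
  ∀ p : ℕ, p.Prime → ¬ p ∣ q → ∃ m : ℕ, ∀ h ∈ H, ¬ p ∣ m + h

open Classical in
/-- The number of the classes modulo `p` which contain an element of `-H`. -/
noncomputable def nu (H : Finset ℕ) (p : ℕ) : ℕ :=
  ((range p).filter (fun n : ℕ => ∃ h ∈ H, p ∣ n + h)).card

/-- The product of `1 - nu p / p` over the primes `p ≤ x` not dividing `q`. -/
noncomputable def V (q : ℕ) (H : Finset ℕ) (x : ℕ) : ℝ :=
  ∏ p ∈ ((Icc 1 x).filter Nat.Prime).filter (fun p => ¬ p ∣ q), (1 - (nu H p : ℝ) / p)

open Classical in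
/-- The number of the `n < b ^ K` in `T`, whose `i`-th digit in base `b` belongs to `A i` for all
`i < K`. -/
noncomputable def count (b K : ℕ) (A : ℕ → Finset ℕ) (T : Set ℕ) : ℕ :=
  ((range (b ^ K)).filter (fun n => (∀ i < K, n / b ^ i % b ∈ A i) ∧ n ∈ T)).card

/-- The number of choices of the digits. -/
noncomputable def choices (K : ℕ) (A : ℕ → Finset ℕ) : ℝ := ∏ i ∈ range K, ((A i).card : ℝ)

/-- All prime factors of `m` are larger than `z ^ (1 / r)`. -/
def Rough (r z m : ℕ) : Prop := ∀ p : ℕ, p.Prime → p ∣ m → z < p ^ r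

open Pool.Agent.Y816.PD (ND ND_sub)

lemma V_eq (q : ℕ) (H : Finset ℕ) (x : ℕ) : Pool.Agent.H225.AX.V q H x = V q H x := by
  unfold V Pool.Agent.H225.AX.V
  conv_rhs => rw [prod_filter]
  refine prod_congr rfl fun p _ => ?_
  by_cases h : p ∣ q
  · rw [if_pos h, if_neg (not_not.2 h)]
  · rw [if_neg h, if_pos h]
    rfl

/-- **Exact patterns of almost primes in every reduced class of every modulus, with restricted digits.** -/
theorem result (k D : ℕ) (hk : 1 ≤ k) :
    ∃ δ : ℝ, 0 < δ ∧ ∃ r₀ : ℕ, 2 ≤ r₀ ∧ ∀ r : ℕ, r₀ ≤ r → ∀ b : ℕ, 2 ≤ b →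
      ∃ κ C c : ℝ, 0 < κ ∧ 0 < C ∧ 0 < c ∧ ∀ᶠ K : ℕ in atTop, ∀ q a N : ℕ, 1 ≤ q →
        q ≤ b ^ (D * K) → a ≤ b ^ (D * K) → N ≤ b ^ (D * K) → q.Coprime a →
        ∀ H : Finset ℕ, H.card = k →
        (∀ h ∈ H, (h : ℝ) ≤ c * K * (((Nat.totient q : ℕ) : ℝ) / q)) → Admissible q H →
        ∀ A : ℕ → Finset ℕ, (∀ i < K, A i ⊆ range b) →
        (b : ℝ) ^ K ≤ Real.exp (δ * K) * choices K A →
        κ / (K : ℝ) ^ k ≤ V q H (b ^ K) ∧
        ((∃ e ∈ A 0, ∀ h ∈ H, (q * (N + e + h) + a).Coprime b) → (∃ e ∈ A (K - 1), e ≠ 0) →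
          κ * choices K A * V q H (b ^ K) ≤
            count b K A {n | b ^ (K - 1) ≤ n ∧
              (∀ h ∈ H, Rough r (b ^ K) (q * (N + n + h) + a) ∧
                (q * (N + n + h) + a).primeFactorsList.length ≤ r) ∧
              ∀ j : ℕ, (j : ℝ) ≤ c * K * (((Nat.totient q : ℕ) : ℝ) / q) → j ∉ H →
                ¬ Rough r (b ^ K) (q * (N + n + j) + a)}) ∧
        (count b K A {n | ∀ h ∈ H, (q * (N + n + h) + a).Prime} : ℝ) ≤
          C * choices K A * V q H (b ^ K) := by
  obtain ⟨δ, hδ, r₀, hr₀, h⟩ := Pool.Agent.H225.AX.exact k D hk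
  refine ⟨δ, hδ, r₀, hr₀, fun r hr b hb => ?_⟩
  obtain ⟨κ, C, c, hκ, hC, hc, h1⟩ := h r hr b hb
  refine ⟨κ, C, c, hκ, hC, hc, ?_⟩
  filter_upwards [h1] with K hK q a N hq hqb ha hN hqa H hHk hHc hadm A hA hprod
  obtain ⟨h2, h3, h4⟩ := hK q a N hq hqb ha hN hqa H hHk hHc hadm A hA hprod
  rw [V_eq] at h2 h3 h4
  refine ⟨h2, h3, le_trans (Nat.cast_le.2 ?_) h4⟩
  refine ND_sub fun n hn hn1 hn2 => ⟨hn1, fun h hh p hp hpd => ?_⟩
  have hpr : (q * (N + n + h) + a).Prime := hn2 h hh
  rw [(Nat.prime_dvd_prime_iff_eq hp hpr).1 hpd]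
  have h5 : n ≤ q * (N + n + h) + a := by
    calc n ≤ N + n + h := by omega
      _ ≤ q * (N + n + h) := Nat.le_mul_of_pos_left _ hq
      _ ≤ _ := Nat.le_add_right _ _
  have h6 : (q * (N + n + h) + a) ^ 2 ≤ (q * (N + n + h) + a) ^ r :=
    Nat.pow_le_pow_right hpr.pos (hr₀.trans hr)
  have h7 := hpr.two_le
  nlinarith

end Pool.Agent.Results.MP_458f0b_nt.ExactPatterns
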