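import Pool.Agent.H25.ClassFin

set_option autoImplicit false

/-!
# The law of the least almost prime in the residue classes modulo `d`, for every modulus

The conjecture concerns the largest, over the reduced residue classes modulo `d`, of the least prime of the class.
Call `n` good if it has no prime factor up to `d ^ (1 / r)`, and let `V` be the product of `1 - 1 / p` over these
primes which do not divide `d`. For EVERY large `d` the number of the good integers `≤ T d` of a random reduced
residue class modulo `d` has the Poisson law of mean `λ = T V`; in particular the least good integer of the class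
exceeds `T d` with probability `e ^ (-λ)`.
-/

namespace Pool.Agent.Results.MP_458f0b_nt.LawOfTheLeast

open Finset

/-- No prime `p ≤ d ^ (1 / r)` divides `n`. -/
def Good (d r n : ℕ) : Prop :=
  ∀ p : ℕ, p.Prime → (p : ℝ) ≤ (d : ℝ) ^ (1 / (r : ℝ)) → ¬ p ∣ n

/-- The reduced residue classes, represented in `(u, u + d]`. -/
def Cl (d u : ℕ) : Finset ℕ := (Ioc u (u + d)).filter (fun c => Nat.Coprime c d)

open Classical in
/-- The number of the good integers among `c, c + d, …, c + (T - 1) d`. -/
noncomputable def W (d r T c : ℕ) : ℕ := ((range T).filter (fun t => Good d r (c + t * d))).card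

/-- The product of `1 - 1 / p` over the primes `p ≤ d ^ (1 / r)` not dividing `d`. -/
noncomputable def V (d r : ℕ) : ℝ :=
  ∏ p ∈ (Icc 1 ⌊(d : ℝ) ^ (1 / (r : ℝ))⌋₊).filter (fun p => p.Prime ∧ ¬ p ∣ d), (1 - 1 / (p : ℝ))

open Classical in
/-- The reduced residue classes (represented in `[1, d]`) which contain no good integer in `[1, T d]`. -/
noncomputable def Empty (d r T : ℕ) : Finset ℕ :=
  (Cl d 0).filter (fun c => ∀ n : ℕ, 1 ≤ n → n ≤ T * d → n % d = c % d → ¬ Good d r n)

lemma empty_iff (d r T c : ℕ) (hc : c ∈ Cl d 0) :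
    (∀ n : ℕ, 1 ≤ n → n ≤ T * d → n % d = c % d → ¬ Good d r n) ↔ W d r T c ∈ ({0} : Finset ℕ) := by
  classical
  unfold Cl at hc
  rw [mem_filter, mem_Ioc] at hc
  obtain ⟨⟨h1, h2⟩, -⟩ := hc
  rw [mem_singleton]
  unfold W
  rw [Finset.card_eq_zero, Finset.filter_eq_empty_iff]
  constructor
  · intro h t ht
    rw [mem_range] at ht
    have h3 : (t + 1) * d ≤ T * d := Nat.mul_le_mul_right d ht
    have h4 : (t + 1) * d = t * d + d := by ring
    refine h (c + t * d) (by omega) (by omega) ?_
    rw [Nat.add_mul_mod_self_right]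
  · intro h n hn1 hn2 hn3 hg
    have hcn : c ≤ n := by
      by_contra hcon
      rw [not_le] at hcon
      have h5 : d ∣ c - n := (Nat.modEq_iff_dvd' hcon.le).1 hn3
      have := Nat.le_of_dvd (by omega) h5
      omega
    have h5 : d ∣ n - c := (Nat.modEq_iff_dvd' hcn).1 hn3.symm
    obtain ⟨t, ht⟩ := h5
    have h6 : n = c + t * d := by rw [mul_comm t d, ← ht]; omega
    have h7 : t < T := by
      by_contra hcon
      rw [not_lt] at hcon
      have := Nat.mul_le_mul_right d hcon
      omega
    exact h (mem_range.2 h7) (h6 ▸ hg)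

/-- **The law of the number of almost primes, and of the least almost prime, in the residue classes.** -/
theorem result (x₀ ε : ℝ) (hε : 0 < ε) : ∃ r₀ T₀ : ℕ, ∀ r : ℕ, r₀ ≤ r → ∃ d₀ : ℕ, ∀ d : ℕ, d₀ ≤ d →
    (∀ n : ℕ, n ≠ 0 → n ≤ d ^ 2 → Good d r n → n.primeFactorsList.length ≤ 2 * r) ∧
    (∀ T : ℕ, T₀ ≤ T → T * V d r ≤ x₀ →
      |((Empty d r T).card : ℝ) - d.totient * Real.exp (-(T * V d r))| ≤ ε * d.totient) ∧
    ∀ u T : ℕ, T₀ ≤ T → T * V d r ≤ x₀ → ∀ A : Finset ℕ,
      |(((Cl d u).filter (fun c => W d r T c ∈ A)).card : ℝ) -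
        d.totient * ∑ j ∈ A, Real.exp (-(T * V d r)) * (T * V d r) ^ j / j.factorial| ≤
        ε * d.totient := by
  classical
  obtain ⟨r0, T0, h⟩ := Pool.Agent.H25.ClassFin.final 0 x₀ ε hε
  refine ⟨r0, T0, ?_⟩
  intro r hr
  obtain ⟨d0, hd0⟩ := h r hr
  refine ⟨d0, ?_⟩
  intro d hd
  obtain ⟨h1, h2⟩ := hd0 d hd
  have hlaw : ∀ u T : ℕ, T0 ≤ T → T * V d r ≤ x₀ → ∀ A : Finset ℕ,
      |(((Cl d u).filter (fun c => W d r T c ∈ A)).card : ℝ) -
        d.totient * ∑ j ∈ A, Real.exp (-(T * V d r)) * (T * V d r) ^ j / j.factorial| ≤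
        ε * d.totient := fun u T hT hTV A => (h2 u T hT hTV).2.2 A
  refine ⟨h1, fun T hT hTV => ?_, hlaw⟩
  have h3 := hlaw 0 T hT hTV {0}
  have h4 : Empty d r T = (Cl d 0).filter (fun c => W d r T c ∈ ({0} : Finset ℕ)) := by
    unfold Empty
    apply Finset.filter_congr
    intro c hc
    exact empty_iff d r T c hc
  rw [← h4] at h3
  simpa using h3

end Pool.Agent.Results.MP_458f0b_nt.LawOfTheLeast
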