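import Mathlib
import Pool.Agent.Results.MP_458f0b_nt.RecordModuli
import Pool.Agent.V11109.DEC.Rec

/-!
# The largest least prime in the residue classes modulo `d`: record size along sparse sequences

There is an absolute constant `c > 0` such that for every real `p > 1` there is a set `A₀` of real numbers
of Hausdorff dimension smaller than one with the following property: for all `α > 0` outside `A₀`, with
`t_j = ⌊α j ^ p⌋` (there are about `X ^ (1 / p)` terms up to `X`), and all integers `q ≥ 1` for 100% of the `j`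
the number `p(d) = max {p(d, a) : 1 ≤ a < d, gcd(a, d) = 1}`, `d = q t_j`, is at least
`c φ(d) log d (log₂ d)² log₄ d / (log₃ d)²`.
-/

set_option autoImplicit false

namespace Pool.Agent.Results.MP_458f0b_nt.RecordsAlongSequences

open Finset Filter Topology

open Pool.Agent.V11109.DEC (nterm Few)

/-- the largest of the least primes in the reduced residue classes modulo `d` -/
noncomputable def largest (d : ℕ) : ℕ :=
  ((Finset.range d).filter (fun a => Nat.Coprime a d)).sup (fun a => sInf {p : ℕ | p.Prime ∧ p % d = a})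

/-- `φ(d) log d (log₂ d)² log₄ d / (log₃ d)²` -/
noncomputable def record (d : ℕ) : ℝ :=
  (Nat.totient d : ℝ) * Real.log d * (Real.log (Real.log d)) ^ 2 *
    Real.log (Real.log (Real.log (Real.log d))) / (Real.log (Real.log (Real.log d))) ^ 2

/-- `p(d)` is smaller than `c φ(d) log d (log₂ d)² log₄ d / (log₃ d)²` -/
def NotRecord (c : ℝ) (d : ℕ) : Prop := (largest d : ℝ) < c * record d

/-- **Main result.** There is `c > 0` such that for every real `p > 1` there is a set `A₀` of real numbers of
Hausdorff dimension smaller than one such that for all `q ≥ 1` and `η > 0`, all `α > 0` outside `A₀` and all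
large `N` at most `η N` of the `j ≤ N` are such that `NotRecord c d` holds for `d = q t_j`. -/
theorem result : ∃ c : ℝ, 0 < c ∧ ∀ p : ℝ, 1 < p → ∃ A₀ : Set ℝ, dimH A₀ < 1 ∧
    ∀ q : ℕ, 1 ≤ q → ∀ η : ℝ, 0 < η → Few p A₀ η q (NotRecord c) := by
  obtain ⟨c, hc, d₀, h⟩ := RecordModuli.result 1 zero_le_one
  refine ⟨c, hc, fun p hp => ?_⟩
  obtain ⟨A₀, hA₀, hfew⟩ := Pool.Agent.V11109.DEC.few p hp (fun (_ : Unit) d => NotRecord c d)
  refine ⟨A₀, hA₀, fun q hq η hη => ?_⟩
  have hq0 : (0 : ℝ) < q := by exact_mod_cast hq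
  refine hfew () η hη q hq ?_
  obtain ⟨X₀, hX₀⟩ := Pool.Agent.V11109.DEC.Rec.dens (fun d => ¬ NotRecord c d)
    ⟨d₀, fun d hd hS => by
      unfold NotRecord
      rw [not_lt]
      exact h d hd hS⟩ (η / (2 * q)) (by positivity)
  refine ⟨X₀, fun X hX => le_trans (le_of_eq ?_) (hX₀ X hX)⟩
  congr 2
  ext n
  simp only [Set.mem_ofPred_eq, not_not]

end Pool.Agent.Results.MP_458f0b_nt.RecordsAlongSequences
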